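import Pool.Agent.H43.LD.Lim

/-!
# The exact mean square error of the approximation by the quadratic statistics
-/

set_option autoImplicit false
set_option linter.unusedSectionVars false

open MeasureTheory ProbabilityTheory Real Filter Topology

namespace Pool.Agent.H43.LD

open Pool.Agent.H37

lemma WK_sub (n : ℕ) {K K' : Finset (ℕ × ℕ)} (h : K ⊆ K') (X : Fin (n + 1) → E) :
    WK n K' X - WK n K X = WK n (K' \ K) X := by
  unfold WK
  rw [← Finset.sum_sdiff h]
  ring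

lemma tail_union_le (K L : Finset (ℕ × ℕ)) : tail (K ∪ L) ≤ tail L := by
  unfold tail
  have := Finset.sum_le_sum_of_subset_of_nonneg (f := fun k => 1 / lam k ^ 2)
    (Finset.subset_union_right (s₁ := K) (s₂ := L)) (fun k _ _ => by positivity)
  linarith

lemma sum_sdiff_tail {K K' : Finset (ℕ × ℕ)} (h : K ⊆ K') :
    ∑ k ∈ K' \ K, 2 / lam k ^ 2 = 2 * tail K - 2 * tail K' := by
  have h1 := sig2_eq K
  have h2 := sig2_eq K'
  have h3 := Finset.sum_sdiff h (f := fun k => 2 / lam k ^ 2)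
  linarith

/-- **The exact mean square error.** -/
theorem tendsto_VV_sub_WK_sq (K : Finset (ℕ × ℕ)) (hK : 0 ∉ K) :
    Tendsto (fun n => ∫ X, (VV n X - WK n K X) ^ 2 ∂(Pn P (n + 1))) atTop (𝓝 (2 * tail K)) := by
  rw [Metric.tendsto_atTop]
  intro ε hε
  have hs0 : 0 ≤ 2 * tail K := by linarith [tail_nonneg K]
  set η : ℝ := ε / (4 * (2 * tail K + 1)) with hη
  have hη0 : 0 < η := by positivity
  obtain ⟨K0, hK0, ht0⟩ := exists_tail_small (min (ε / 8) (ε / (4 * ((1 + 1 / η) * 240) )))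
    (by positivity)
  set K' : Finset (ℕ × ℕ) := K ∪ K0 with hK'def
  have hKK' : K ⊆ K' := Finset.subset_union_left
  have hK' : 0 ∉ K' := by
    rw [hK'def, Finset.mem_union, not_or]
    exact ⟨hK, hK0⟩
  have ht : tail K' < min (ε / 8) (ε / (4 * ((1 + 1 / η) * 240) )) :=
    (tail_union_le K K0).trans_lt ht0
  have hD : 0 ∉ K' \ K := fun h => hK' (Finset.mem_sdiff.mp h).1
  have ht1 : tail K' < ε / 8 := ht.trans_le (min_le_left _ _)
  have ht2 : (1 + 1 / η) * (240 * tail K') < ε / 4 := by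
    have h1 := ht.trans_le (min_le_right _ _)
    rw [lt_div_iff₀ (by positivity)] at h1
    linarith
  have hA := tendsto_ww.const_mul ((1 + 1 / η) * (5484 + 3840 * SK K' + 1032 * K'.card +
      288 * K'.card * LL K' ^ 2 + 3 * CK K' ^ 2))
  rw [mul_zero] at hA
  have hgap : 0 < ε / 4 - (1 + 1 / η) * (240 * tail K') := by linarith
  have hW := Metric.tendsto_atTop.mp (tendsto_WK_sq (K' \ K) hD) (min (ε / 8) 1) (by positivity)
  obtain ⟨N1, hN1⟩ := hW
  obtain ⟨N2, hN2⟩ := eventually_atTop.mp (hA.eventually_le_const hgap)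
  obtain ⟨N3, hN3⟩ := eventually_atTop.mp (eventually_subset_box K')
  refine ⟨max N1 (max N2 N3), fun n hn => ?_⟩
  have h1 := hN1 n ((le_max_left _ _).trans hn)
  have h2 := hN2 n (((le_max_left _ _).trans (le_max_right _ _)).trans hn)
  have h3 := var_final n K' hK' (hN3 n (((le_max_right _ _).trans (le_max_right _ _)).trans hn))
  rw [Real.dist_eq] at h1
  have h1a : |∫ X, WK n (K' \ K) X ^ 2 ∂(Pn P (n + 1)) - ∑ k ∈ K' \ K, 2 / lam k ^ 2| < ε / 8 :=
    h1.trans_le (min_le_left _ _)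
  have h1b : |∫ X, WK n (K' \ K) X ^ 2 ∂(Pn P (n + 1)) - ∑ k ∈ K' \ K, 2 / lam k ^ 2| < 1 :=
    h1.trans_le (min_le_right _ _)
  have hsum := sum_sdiff_tail hKK'
  have hWb : ∫ X, WK n (K' \ K) X ^ 2 ∂(Pn P (n + 1)) ≤ 2 * tail K + 1 := by
    have := (abs_lt.mp h1b).2
    linarith [tail_nonneg K']
  have hc := sq_compare (Pn P (n + 1)) ((BM_VV n).sub (BM_WK n K)) (BM_WK n (K' \ K)) hη0
  have e0 : ∀ X : Fin (n + 1) → E, (VV n X - WK n K X - WK n (K' \ K) X) ^ 2 =
      (VV n X - WK n K' X) ^ 2 := by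
    intro X
    rw [← WK_sub n hKK']
    ring
  simp_rw [e0] at hc
  rw [int_sq_VV_sub_WK n K' hK'] at hc
  have hη2 : η * ∫ X, WK n (K' \ K) X ^ 2 ∂(Pn P (n + 1)) ≤ ε / 4 := by
    calc η * ∫ X, WK n (K' \ K) X ^ 2 ∂(Pn P (n + 1)) ≤ η * (2 * tail K + 1) :=
          mul_le_mul_of_nonneg_left hWb hη0.le
      _ = ε / 4 := by rw [hη]; field_simp
  have hη3 : 0 ≤ 1 + 1 / η := by positivity
  have hV : (1 + 1 / η) * VK n K' ≤ ε / 4 := by
    calc (1 + 1 / η) * VK n K' ≤ (1 + 1 / η) * (240 * tail K' + (5484 + 3840 * SK K' +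
          1032 * K'.card + 288 * K'.card * LL K' ^ 2 + 3 * CK K' ^ 2) * ww n) :=
        mul_le_mul_of_nonneg_left h3 hη3
      _ ≤ ε / 4 := by nlinarith
  rw [hsum] at h1a
  have ht0' := tail_nonneg K'
  rw [Real.dist_eq]
  rw [abs_lt] at h1a ⊢
  rw [abs_le] at hc
  constructor <;> linarith [hc.1, hc.2, h1a.1, h1a.2]

lemma tail_eq (K : Finset (ℕ × ℕ)) :
    2 * tail K = ∑' k : ℕ × ℕ, if k ∈ K then 0 else 2 / lam k ^ 2 := by
  have h1 := sig2_eq K
  have h2 : ∑' k : ℕ × ℕ, (if k ∈ K then 2 / lam k ^ 2 else 0) = ∑ k ∈ K, 2 / lam k ^ 2 := by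
    rw [tsum_eq_sum (s := K) fun k hk => if_neg hk]
    exact Finset.sum_congr rfl fun k hk => if_pos hk
  have h3 : Summable fun k : ℕ × ℕ => if k ∈ K then 2 / lam k ^ 2 else 0 :=
    summable_of_ne_finset_zero (s := K) fun k hk => if_neg hk
  have h4 : Summable fun k : ℕ × ℕ => if k ∈ K then 0 else 2 / lam k ^ 2 := by
    refine (summable_two_div.sub h3).congr fun k => ?_
    split_ifs <;> ring
  have h5 : sig2 = ∑' k : ℕ × ℕ, ((if k ∈ K then 2 / lam k ^ 2 else 0) +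
      if k ∈ K then 0 else 2 / lam k ^ 2) := by
    unfold sig2
    refine tsum_congr fun k => ?_
    split_ifs <;> ring
  rw [h3.tsum_add h4, h2] at h5
  linarith

end Pool.Agent.H43.LD
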