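import Pool.Agent.H37.Ledoux.Main

/-!
# The mixed fourth moment of two sums and the second moment of the quadratic statistic
-/

set_option autoImplicit false
set_option linter.unusedSectionVars false

open MeasureTheory ProbabilityTheory Real Filter Topology

namespace Pool.Agent.H43.LD

open Pool.Agent.H37

variable {α : Type*} [MeasurableSpace α]

lemma int_Sm_mul (μ : Measure α) [IsProbabilityMeasure μ] {h k : α → ℝ} (hh : BM h) (hk : BM k)
    (h0 : ∫ a, h a ∂μ = 0) (k0 : ∫ a, k a ∂μ = 0) (n : ℕ) :
    ∫ x, Sm h n x * Sm k n x ∂(Pn μ n) = n * ∫ a, h a * k a ∂μ := by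
  induction n with
  | zero => simp [Sm]
  | succ n ih =>
    rw [int_cons μ n _ ((BM_Sm hh (n + 1)).mul (BM_Sm hk (n + 1)))]
    simp_rw [Sm_cons]
    have h1 : ∀ x : Fin n → α, ∫ a, (h a + Sm h n x) * (k a + Sm k n x) ∂μ =
        ∫ a, h a * k a ∂μ + Sm h n x * Sm k n x := by
      intro x
      have e1 : ∀ a, (h a + Sm h n x) * (k a + Sm k n x) =
          h a * k a + (Sm k n x * h a + Sm h n x * k a) + Sm h n x * Sm k n x := by
        intro a; ring
      simp_rw [e1]
      rw [integral_add (((hh.mul hk).add ((hh.const_mul _).add (hk.const_mul _))).integrable μ)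
        (integrable_const _),
        integral_add ((hh.mul hk).integrable μ) (((hh.const_mul _).add (hk.const_mul _)).integrable μ),
        integral_add ((hh.const_mul _).integrable μ) ((hk.const_mul _).integrable μ),
        integral_const_mul, integral_const_mul, h0, k0]
      simp
    simp_rw [h1]
    rw [integral_add (integrable_const _) (((BM_Sm hh n).mul (BM_Sm hk n)).integrable _), ih]
    simp only [integral_const, probReal_univ, smul_eq_mul, one_mul]
    push_cast
    ring

lemma int_Sm_sq_sq (μ : Measure α) [IsProbabilityMeasure μ] {h k : α → ℝ} (hh : BM h) (hk : BM k)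
    (h0 : ∫ a, h a ∂μ = 0) (k0 : ∫ a, k a ∂μ = 0) (h2 : ∫ a, h a ^ 2 ∂μ = 1)
    (k2 : ∫ a, k a ^ 2 ∂μ = 1) (n : ℕ) :
    ∫ x, Sm h n x ^ 2 * Sm k n x ^ 2 ∂(Pn μ n) = n * ∫ a, h a ^ 2 * k a ^ 2 ∂μ +
      (1 + 2 * (∫ a, h a * k a ∂μ) ^ 2) * (n * ((n : ℝ) - 1)) := by
  set ρ := ∫ a, h a * k a ∂μ with hρ
  set κ := ∫ a, h a ^ 2 * k a ^ 2 ∂μ with hκ
  induction n with
  | zero => simp [Sm]
  | succ n ih =>
    rw [int_cons μ n _ ((BM_Sm hh (n + 1)).sq.mul (BM_Sm hk (n + 1)).sq)]
    simp_rw [Sm_cons]
    set A := ∫ a, h a ^ 2 * k a ∂μ with hA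
    set B := ∫ a, h a * k a ^ 2 ∂μ with hB
    have h1 : ∀ x : Fin n → α, ∫ a, (h a + Sm h n x) ^ 2 * (k a + Sm k n x) ^ 2 ∂μ =
        κ + (2 * A) * Sm k n x + (2 * B) * Sm h n x + (4 * ρ) * (Sm h n x * Sm k n x) +
          Sm k n x ^ 2 + Sm h n x ^ 2 + Sm h n x ^ 2 * Sm k n x ^ 2 := by
      intro x
      set S := Sm h n x with hS
      set R := Sm k n x with hR
      have e1 : ∀ a, (h a + S) ^ 2 * (k a + R) ^ 2 =
          h a ^ 2 * k a ^ 2 + ((2 * R) * (h a ^ 2 * k a) + ((2 * S) * (h a * k a ^ 2) +
          ((4 * (S * R)) * (h a * k a) + ((R ^ 2) * h a ^ 2 + ((S ^ 2) * k a ^ 2 +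
          ((2 * S * R ^ 2) * h a + ((2 * S ^ 2 * R) * k a + S ^ 2 * R ^ 2))))))) := by
        intro a; ring
      simp_rw [e1]
      have b1 : BM fun a => h a ^ 2 * k a ^ 2 := hh.sq.mul hk.sq
      have b2 : BM fun a => (2 * R) * (h a ^ 2 * k a) := (hh.sq.mul hk).const_mul _
      have b3 : BM fun a => (2 * S) * (h a * k a ^ 2) := (hh.mul hk.sq).const_mul _
      have b4 : BM fun a => (4 * (S * R)) * (h a * k a) := (hh.mul hk).const_mul _
      have b5 : BM fun a => (R ^ 2) * h a ^ 2 := hh.sq.const_mul _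
      have b6 : BM fun a => (S ^ 2) * k a ^ 2 := hk.sq.const_mul _
      have b7 : BM fun a => (2 * S * R ^ 2) * h a := hh.const_mul _
      have b8 : BM fun a => (2 * S ^ 2 * R) * k a := hk.const_mul _
      have b9 : BM fun _ : α => S ^ 2 * R ^ 2 := BM.const _
      rw [integral_add (b1.integrable μ)
          ((b2.add (b3.add (b4.add (b5.add (b6.add (b7.add (b8.add b9))))))).integrable μ),
        integral_add (b2.integrable μ)
          ((b3.add (b4.add (b5.add (b6.add (b7.add (b8.add b9)))))).integrable μ),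
        integral_add (b3.integrable μ)
          ((b4.add (b5.add (b6.add (b7.add (b8.add b9))))).integrable μ),
        integral_add (b4.integrable μ) ((b5.add (b6.add (b7.add (b8.add b9)))).integrable μ),
        integral_add (b5.integrable μ) ((b6.add (b7.add (b8.add b9))).integrable μ),
        integral_add (b6.integrable μ) ((b7.add (b8.add b9)).integrable μ),
        integral_add (b7.integrable μ) ((b8.add b9).integrable μ),
        integral_add (b8.integrable μ) (b9.integrable μ)]
      simp only [integral_const_mul, h0, k0, h2, k2, integral_const, probReal_univ, smul_eq_mul,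
        one_mul, mul_zero, mul_one, ← hA, ← hB, ← hρ, ← hκ]
      ring
    simp_rw [h1]
    have c2 : BM fun x : Fin n → α => (2 * A) * Sm k n x := (BM_Sm hk n).const_mul _
    have c3 : BM fun x : Fin n → α => (2 * B) * Sm h n x := (BM_Sm hh n).const_mul _
    have c4 : BM fun x : Fin n → α => (4 * ρ) * (Sm h n x * Sm k n x) :=
      ((BM_Sm hh n).mul (BM_Sm hk n)).const_mul _
    have c5 : BM fun x : Fin n → α => Sm k n x ^ 2 := (BM_Sm hk n).sq
    have c6 : BM fun x : Fin n → α => Sm h n x ^ 2 := (BM_Sm hh n).sq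
    have c7 : BM fun x : Fin n → α => Sm h n x ^ 2 * Sm k n x ^ 2 := c6.mul c5
    have c1 : BM fun _ : Fin n → α => κ := BM.const _
    rw [integral_add ((((((c1.add c2).add c3).add c4).add c5).add c6).integrable _) (c7.integrable _),
      integral_add (((((c1.add c2).add c3).add c4).add c5).integrable _) (c6.integrable _),
      integral_add ((((c1.add c2).add c3).add c4).integrable _) (c5.integrable _),
      integral_add (((c1.add c2).add c3).integrable _) (c4.integrable _),
      integral_add ((c1.add c2).integrable _) (c3.integrable _),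
      integral_add (c1.integrable _) (c2.integrable _),
      integral_const_mul, integral_const_mul, integral_const_mul,
      int_Sm μ hh h0, int_Sm μ hk k0, int_Sm_mul μ hh hk h0 k0, int_Sm_sq μ hh h0 h2,
      int_Sm_sq μ hk k0 k2, ih]
    simp only [integral_const, probReal_univ, smul_eq_mul, one_mul]
    push_cast
    ring

end Pool.Agent.H43.LD
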