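import Pool.Agent.H43.LD.Sec

/-!
# The Gaussian series: convergence in mean square and the second moment of the limit law
-/

set_option autoImplicit false
set_option linter.unusedSectionVars false

open MeasureTheory ProbabilityTheory Real Filter Topology

namespace Pool.Agent.H43.LD

open Pool.Agent.H37

lemma integrable_four : Integrable (fun x : ℝ => x ^ 4) (gaussianReal 0 1) := by
  have h := (memLp_id_gaussianReal (μ := 0) (v := 1) 4).integrable_norm_pow (by norm_num)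
  refine h.congr (Eventually.of_forall fun x => ?_)
  show ‖id x‖ ^ 4 = x ^ 4
  rw [id, Real.norm_eq_abs]
  exact Even.pow_abs ⟨2, rfl⟩ x

lemma integrable_two : Integrable (fun x : ℝ => x ^ 2) (gaussianReal 0 1) := by
  have h := (memLp_id_gaussianReal (μ := 0) (v := 1) 2).integrable_norm_pow (by norm_num)
  refine h.congr (Eventually.of_forall fun x => ?_)
  show ‖id x‖ ^ 2 = x ^ 2
  rw [id, Real.norm_eq_abs, sq_abs]

lemma int_two : ∫ x, x ^ 2 ∂(gaussianReal 0 1) = 1 := by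
  have h := variance_id_gaussianReal (μ := 0) (v := 1)
  rw [variance_eq_integral (by fun_prop)] at h
  simpa using h

lemma int_four : ∫ x, x ^ 4 ∂(gaussianReal 0 1) = 3 := by
  rw [integral_gaussianReal_eq_integral_smul (by norm_num)]
  have e1 : ∀ x : ℝ, gaussianPDFReal 0 1 x • x ^ 4 =
      (√(2 * π))⁻¹ * (fun y : ℝ => y ^ (4 : ℝ) * exp (-(1 / 2) * y ^ (2 : ℝ))) |x| := by
    intro x
    unfold gaussianPDFReal
    simp only [smul_eq_mul]
    rw [show |x| ^ (4 : ℝ) = x ^ 4 by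
        rw [show (4 : ℝ) = ((4 : ℕ) : ℝ) by norm_num, Real.rpow_natCast]
        exact Even.pow_abs ⟨2, rfl⟩ x,
      show |x| ^ (2 : ℝ) = x ^ 2 by
        rw [show (2 : ℝ) = ((2 : ℕ) : ℝ) by norm_num, Real.rpow_natCast, sq_abs]]
    have e2 : -(x - 0) ^ 2 / (2 * ((1 : NNReal) : ℝ)) = -(1 / 2) * x ^ 2 := by
      simp only [NNReal.coe_one]
      ring
    rw [e2]
    simp only [NNReal.coe_one, mul_one]
    ring
  simp_rw [e1]
  have h5 := integral_comp_abs (f := fun y : ℝ => y ^ (4 : ℝ) * exp (-(1 / 2) * y ^ (2 : ℝ)))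
  have h6 := integral_rpow_mul_exp_neg_mul_rpow (p := 2) (q := 4) (b := 1 / 2) (by norm_num)
    (by norm_num) (by norm_num)
  rw [integral_const_mul, h5, h6]
  have hG : Real.Gamma ((4 + 1) / 2) = 3 * √π / 4 := by
    rw [show ((4 : ℝ) + 1) / 2 = 3 / 2 + 1 by norm_num, Real.Gamma_add_one (by norm_num),
      show (3 : ℝ) / 2 = 1 / 2 + 1 by norm_num, Real.Gamma_add_one (by norm_num),
      Real.Gamma_one_half_eq]
    ring
  rw [hG]
  have h2 : ((1 : ℝ) / 2) ^ (-((4 : ℝ) + 1) / 2) = 4 * √2 := by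
    rw [one_div, Real.inv_rpow (by norm_num), ← Real.rpow_neg (by norm_num),
      show -(-((4 : ℝ) + 1) / 2) = 2 + 1 / 2 by norm_num, Real.rpow_add (by norm_num),
      ← Real.sqrt_eq_rpow]
    norm_num
  rw [h2, Real.sqrt_mul (by norm_num)]
  have h3 : √2 ≠ 0 := by positivity
  have h4 : √π ≠ 0 := by positivity
  field_simp

section

variable {Ω : Type*} [MeasurableSpace Ω] (Pr : Measure Ω) [IsProbabilityMeasure Pr]
  (g : ℕ × ℕ → Ω → ℝ)

/-- the summand -/
noncomputable def Yk (k : ℕ × ℕ) (ω : Ω) : ℝ := (g k ω ^ 2 - 1) / lam k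

/-- the sum over a finite set -/
noncomputable def YS (A : Finset (ℕ × ℕ)) (ω : Ω) : ℝ := ∑ k ∈ A, Yk g k ω

variable {g}

lemma meas_Yk (hm : ∀ k, Measurable (g k)) (k : ℕ × ℕ) : Measurable (Yk g k) := by
  unfold Yk
  exact (((hm k).pow_const 2).sub_const 1).div_const _

lemma meas_YS (hm : ∀ k, Measurable (g k)) (A : Finset (ℕ × ℕ)) : Measurable (YS g A) := by
  unfold YS
  exact Finset.measurable_fun_sum _ fun k _ => meas_Yk hm k

lemma memLp_Yk (hm : ∀ k, Measurable (g k)) (hlaw : ∀ k, Pr.map (g k) = gaussianReal 0 1)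
    (k : ℕ × ℕ) : MemLp (Yk g k) 2 Pr := by
  have h1 : Integrable (fun ω => g k ω ^ 4) Pr := by
    have h := integrable_four
    rw [← hlaw k, integrable_map_measure (by fun_prop) (hm k).aemeasurable] at h
    exact h
  have h2 : MemLp (fun ω => g k ω ^ 2) 2 Pr := by
    rw [memLp_two_iff_integrable_sq ((hm k).pow_const 2).aestronglyMeasurable]
    refine h1.congr (Eventually.of_forall fun ω => ?_)
    show g k ω ^ 4 = (g k ω ^ 2) ^ 2
    ring
  have h3 : MemLp (fun _ : Ω => (1 : ℝ)) 2 Pr := memLp_const 1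
  have h4 := (h2.sub h3).const_mul (lam k)⁻¹
  refine h4.ae_eq (Eventually.of_forall fun ω => ?_)
  show (lam k)⁻¹ * (g k ω ^ 2 - 1) = (g k ω ^ 2 - 1) / lam k
  rw [div_eq_inv_mul]

lemma int_Yk (hm : ∀ k, Measurable (g k)) (hlaw : ∀ k, Pr.map (g k) = gaussianReal 0 1)
    (k : ℕ × ℕ) : ∫ ω, Yk g k ω ∂Pr = 0 := by
  have h1 : ∫ ω, Yk g k ω ∂Pr = ∫ x, (x ^ 2 - 1) / lam k ∂(gaussianReal 0 1) := by
    rw [← hlaw k, integral_map (hm k).aemeasurable (by fun_prop)]
    rfl
  rw [h1, integral_div, integral_sub integrable_two (integrable_const _), int_two]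
  simp

lemma var_Yk (hm : ∀ k, Measurable (g k)) (hlaw : ∀ k, Pr.map (g k) = gaussianReal 0 1)
    (k : ℕ × ℕ) : variance (Yk g k) Pr = 2 / lam k ^ 2 := by
  rw [variance_eq_integral (meas_Yk hm k).aemeasurable, int_Yk Pr hm hlaw k]
  have h1 : ∫ ω, (Yk g k ω - 0) ^ 2 ∂Pr = ∫ x, ((x ^ 2 - 1) / lam k) ^ 2 ∂(gaussianReal 0 1) := by
    rw [← hlaw k, integral_map (hm k).aemeasurable (by fun_prop)]
    simp only [sub_zero]
    rfl
  rw [h1]
  have h2 : ∀ x : ℝ, ((x ^ 2 - 1) / lam k) ^ 2 = (1 / lam k ^ 2) * (x ^ 4 - 2 * x ^ 2 + 1) := by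
    intro x
    rw [div_pow]
    ring
  simp_rw [h2]
  have i1 : Integrable (fun x : ℝ => x ^ 4 - 2 * x ^ 2) (gaussianReal 0 1) :=
    integrable_four.sub (integrable_two.const_mul 2)
  rw [integral_const_mul, integral_add i1 (integrable_const _),
    integral_sub integrable_four (integrable_two.const_mul 2),
    integral_const_mul, int_four, int_two]
  simp only [integral_const, probReal_univ, smul_eq_mul, mul_one]
  ring

lemma int_YS_sq (hm : ∀ k, Measurable (g k)) (hind : iIndepFun g Pr)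
    (hlaw : ∀ k, Pr.map (g k) = gaussianReal 0 1) (A : Finset (ℕ × ℕ)) :
    ∫ ω, YS g A ω ^ 2 ∂Pr = ∑ k ∈ A, 2 / lam k ^ 2 := by
  have hY : ∀ k ∈ A, MemLp (Yk g k) 2 Pr := fun k _ => memLp_Yk Pr hm hlaw k
  have hp : Set.Pairwise (A : Set (ℕ × ℕ)) fun i j => IndepFun (Yk g i) (Yk g j) Pr := by
    intro i _ j _ hij
    have h1 := hind.indepFun hij
    exact h1.comp (φ := fun x : ℝ => (x ^ 2 - 1) / lam i) (ψ := fun x : ℝ => (x ^ 2 - 1) / lam j)
      (by fun_prop) (by fun_prop)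
  have h1 := IndepFun.variance_sum hY hp
  have h2 : ∑ k ∈ A, variance (Yk g k) Pr = ∑ k ∈ A, 2 / lam k ^ 2 :=
    Finset.sum_congr rfl fun k _ => var_Yk Pr hm hlaw k
  have h3 : (∑ k ∈ A, Yk g k) = YS g A := by
    funext ω
    unfold YS
    rw [Finset.sum_apply]
  rw [h2, h3, variance_eq_integral (meas_YS hm A).aemeasurable] at h1
  have h4 : ∫ ω, YS g A ω ∂Pr = 0 := by
    unfold YS
    rw [integral_finsetSum _ fun k hk => (memLp_Yk Pr hm hlaw k).integrable (by norm_num)]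
    exact Finset.sum_eq_zero fun k _ => int_Yk Pr hm hlaw k
  rw [h4] at h1
  simpa using h1

end

end Pool.Agent.H43.LD
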