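import Pool.Agent.H43.LD.Gs

/-!
# The second moment of the limit law
-/

set_option autoImplicit false
set_option linter.unusedSectionVars false

open MeasureTheory ProbabilityTheory Real Filter Topology

namespace Pool.Agent.H43.LD

open Pool.Agent.H37

section

variable {Ω : Type*} [MeasurableSpace Ω] (Pr : Measure Ω) [IsProbabilityMeasure Pr]

lemma norm_sq_Lp (F : Lp ℝ 2 Pr) : ‖F‖ ^ 2 = ∫ ω, F ω ^ 2 ∂Pr := by
  rw [← real_inner_self_eq_norm_sq, L2.inner_def]
  refine integral_congr_ae (Eventually.of_forall fun ω => ?_)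
  show inner ℝ (F ω) (F ω) = F ω ^ 2
  rw [real_inner_self_eq_norm_sq, Real.norm_eq_abs, sq_abs]

lemma norm_sq_toLp {f : Ω → ℝ} (hf : MemLp f 2 Pr) : ‖hf.toLp f‖ ^ 2 = ∫ ω, f ω ^ 2 ∂Pr := by
  rw [norm_sq_Lp]
  refine integral_congr_ae ?_
  filter_upwards [hf.coeFn_toLp] with ω h
  rw [h]

variable {g : ℕ × ℕ → Ω → ℝ}

lemma memLp_YS (hm : ∀ k, Measurable (g k)) (hlaw : ∀ k, Pr.map (g k) = gaussianReal 0 1)
    (A : Finset (ℕ × ℕ)) : MemLp (YS g A) 2 Pr := by
  unfold YS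
  exact memLp_finsetSum A fun k _ => memLp_Yk Pr hm hlaw k

/-- the index sets -/
def bx (N : ℕ) : Finset (ℕ × ℕ) := (box N).erase 0

lemma bx_mono {M N : ℕ} (h : M ≤ N) : bx M ⊆ bx N := by
  unfold bx box
  apply Finset.erase_subset_erase
  apply Finset.product_subset_product <;> exact Finset.range_mono h

lemma YS_sub {M N : ℕ} (h : M ≤ N) (ω : Ω) :
    YS g (bx N) ω - YS g (bx M) ω = YS g (bx N \ bx M) ω := by
  unfold YS
  rw [← Finset.sum_sdiff (bx_mono h)]
  ring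

lemma sum_diff_le (M N : ℕ) : ∑ k ∈ bx N \ bx M, 2 / lam k ^ 2 ≤ 2 * tail (bx M) := by
  have h := sum_le_tail (bx M) (bx N \ bx M) Finset.sdiff_disjoint
  have h2 : ∑ k ∈ bx N \ bx M, 2 / lam k ^ 2 = 2 * ∑ k ∈ bx N \ bx M, 1 / lam k ^ 2 := by
    rw [Finset.mul_sum]
    exact Finset.sum_congr rfl fun k _ => by ring
  linarith

lemma tendsto_sum_bx : Tendsto (fun N => ∑ k ∈ bx N, 2 / lam k ^ 2) atTop (𝓝 sig2) := by
  have h1 : ∀ N, ∑ k ∈ bx N, 2 / lam k ^ 2 = sig2 - 2 * tail (bx N) := fun N => by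
    rw [sig2_eq (bx N)]; ring
  simp_rw [h1]
  have h2 : Tendsto (fun N => tail (bx N)) atTop (𝓝 0) := tendsto_tail_box
  simpa using (h2.const_mul 2).const_sub sig2

theorem exists_chaos (hm : ∀ k, Measurable (g k)) (hind : iIndepFun g Pr)
    (hlaw : ∀ k, Pr.map (g k) = gaussianReal 0 1) :
    ∃ F : Lp ℝ 2 Pr,
      Tendsto (fun N => (memLp_YS Pr hm hlaw (bx N)).toLp (YS g (bx N))) atTop (𝓝 F) ∧
      ∫ ω, F ω ^ 2 ∂Pr = sig2 := by
  have hd : ∀ M N : ℕ, M ≤ N → dist ((memLp_YS Pr hm hlaw (bx N)).toLp (YS g (bx N)))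
      ((memLp_YS Pr hm hlaw (bx M)).toLp (YS g (bx M))) ≤ √(2 * tail (bx M)) := by
    intro M N h
    rw [dist_eq_norm, ← MemLp.toLp_sub]
    apply Real.le_sqrt_of_sq_le
    rw [norm_sq_toLp]
    have e1 : ∀ ω, (YS g (bx N) - YS g (bx M)) ω ^ 2 = YS g (bx N \ bx M) ω ^ 2 := by
      intro ω
      rw [Pi.sub_apply, YS_sub h]
    simp_rw [e1]
    rw [int_YS_sq Pr hm hind hlaw]
    exact sum_diff_le M N
  have hanti : ∀ M N : ℕ, M ≤ N → tail (bx N) ≤ tail (bx M) := by
    intro M N h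
    unfold tail
    have := Finset.sum_le_sum_of_subset_of_nonneg (f := fun k => 1 / lam k ^ 2) (bx_mono h)
      (fun k _ _ => by positivity)
    linarith
  have hc : CauchySeq (fun N => (memLp_YS Pr hm hlaw (bx N)).toLp (YS g (bx N))) := by
    apply cauchySeq_of_le_tendsto_0 (fun N => 2 * √(2 * tail (bx N)))
    · intro n m N hn hm'
      have h1 := hd N n hn
      have h2 := hd N m hm'
      have h3 := dist_triangle_right ((memLp_YS Pr hm hlaw (bx n)).toLp (YS g (bx n)))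
        ((memLp_YS Pr hm hlaw (bx m)).toLp (YS g (bx m)))
        ((memLp_YS Pr hm hlaw (bx N)).toLp (YS g (bx N)))
      linarith
    · have h2 : Tendsto (fun N => tail (bx N)) atTop (𝓝 0) := tendsto_tail_box
      have h3 := ((h2.const_mul 2).sqrt).const_mul 2
      simpa using h3
  obtain ⟨F, hF⟩ := cauchySeq_tendsto_of_complete hc
  refine ⟨F, hF, ?_⟩
  rw [← norm_sq_Lp]
  have h1 := (hF.norm).pow 2
  have h2 : ∀ N, ‖(memLp_YS Pr hm hlaw (bx N)).toLp (YS g (bx N))‖ ^ 2 =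
      ∑ k ∈ bx N, 2 / lam k ^ 2 := fun N => by
    rw [norm_sq_toLp, int_YS_sq Pr hm hind hlaw]
  simp_rw [h2] at h1
  exact tendsto_nhds_unique h1 tendsto_sum_bx

lemma map_YS (hm : ∀ k, Measurable (g k)) (hind : iIndepFun g Pr)
    (hlaw : ∀ k, Pr.map (g k) = gaussianReal 0 1) (A : Finset (ℕ × ℕ)) :
    Pr.map (YS g A) = gK A := by
  have h1 : iIndepFun (fun k : (A : Finset (ℕ × ℕ)) => g k) Pr :=
    hind.precomp Subtype.val_injective
  have h2 := (iIndepFun_iff_map_fun_eq_pi_map (fun k : (A : Finset (ℕ × ℕ)) =>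
    (hm k).aemeasurable)).mp h1
  unfold gK
  have h4 : (Measure.pi fun _ : (A : Finset (ℕ × ℕ)) => gaussianReal 0 1) =
      Pr.map fun ω (k : (A : Finset (ℕ × ℕ))) => g k ω := by
    rw [h2]
    congr 1
    funext k
    exact (hlaw k).symm
  rw [h4, Measure.map_map (continuous_qK _).measurable (measurable_pi_iff.mpr fun k => hm k)]
  congr 1
  funext ω
  unfold YS Yk qK
  rw [← Finset.sum_coe_sort]
  rfl

/-- The law of the mean square limit of the Gaussian series is the limit law. -/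
theorem law_chaos (hm : ∀ k, Measurable (g k)) (hind : iIndepFun g Pr)
    (hlaw : ∀ k, Pr.map (g k) = gaussianReal 0 1) (F : Lp ℝ 2 Pr)
    (hF : Tendsto (fun N => (memLp_YS Pr hm hlaw (bx N)).toLp (YS g (bx N))) atTop (𝓝 F))
    (q : ProbabilityMeasure ℝ) (hq : Tendsto lawV atTop (𝓝 q)) : Pr.map F = (q : Measure ℝ) := by
  have h1 := (tendstoInMeasure_of_tendsto_Lp hF).tendstoInDistribution
    (fun N => (Lp.aestronglyMeasurable _).aemeasurable)
  have h2 := ProbabilityMeasure.tendsto_iff_tendsto_charFun.mp h1.tendsto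
  have hFm : AEMeasurable F Pr := (Lp.aestronglyMeasurable F).aemeasurable
  have : IsProbabilityMeasure (Pr.map F) := Measure.isProbabilityMeasure_map hFm
  apply Measure.ext_of_charFun
  funext s
  have h3 := h2 s
  have h4 := chaos_limit q hq s
  refine tendsto_nhds_unique (h3.congr fun N => ?_) h4
  show charFun (Pr.map ((memLp_YS Pr hm hlaw (bx N)).toLp (YS g (bx N)))) s =
    charFun (gK ((box N).erase 0)) s
  rw [Measure.map_congr (memLp_YS Pr hm hlaw (bx N)).coeFn_toLp, map_YS Pr hm hind hlaw]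
  rfl

end

/-- **The second moment of the limit law.** -/
theorem chaos_sq (q : ProbabilityMeasure ℝ) (hq : Tendsto lawV atTop (𝓝 q)) :
    ∫ x, x ^ 2 ∂(q : Measure ℝ) = sig2 := by
  set Pr : Measure (ℕ × ℕ → ℝ) := Measure.infinitePi fun _ => gaussianReal 0 1 with hPr
  set g : ℕ × ℕ → (ℕ × ℕ → ℝ) → ℝ := fun k ω => ω k with hg
  have hm : ∀ k, Measurable (g k) := fun k => measurable_pi_apply k
  have hind : iIndepFun g Pr := iIndepFun_infinitePi (X := fun _ x => x) fun _ => measurable_id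
  have hlaw : ∀ k, Pr.map (g k) = gaussianReal 0 1 := fun k =>
    Measure.infinitePi_map_eval (fun _ => gaussianReal 0 1) k
  obtain ⟨F, hF, hF2⟩ := exists_chaos Pr hm hind hlaw
  have h1 := law_chaos Pr hm hind hlaw F hF q hq
  rw [← hF2, ← h1]
  exact integral_map (Lp.aestronglyMeasurable F).aemeasurable (by fun_prop)

end Pool.Agent.H43.LD
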