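import Pool.Agent.H43.LD.Four

/-!
# The second moment of the quadratic statistic and of the rescaled cost
-/

set_option autoImplicit false
set_option linter.unusedSectionVars false

open MeasureTheory ProbabilityTheory Real Filter Topology

namespace Pool.Agent.H43.LD

open Pool.Agent.H37

/-- The mixed fourth moment of two basis functions. -/
noncomputable def kap (k l : ℕ × ℕ) : ℝ := ∫ y, e k y ^ 2 * e l y ^ 2 ∂P

lemma int_av_sq_av_sq (n : ℕ) {k l : ℕ × ℕ} (hk : k ≠ 0) (hl : l ≠ 0) :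
    ∫ X, (((n : ℝ) + 1) * av X k ^ 2 - 1) * (((n : ℝ) + 1) * av X l ^ 2 - 1) ∂(Pn P (n + 1)) =
      (if k = l then 2 else 0) +
        (kap k l - 1 - (if k = l then 2 else 0)) * (1 / ((n : ℝ) + 1)) := by
  have hm : (0 : ℝ) < (n : ℝ) + 1 := by positivity
  have h4 := int_Sm_sq_sq P (BM_e k) (BM_e l) (int_e' hk) (int_e' hl) (int_e_sq k) (int_e_sq l)
    (n + 1)
  rw [int_e_mul_e] at h4
  have e1 : ∀ X : Fin (n + 1) → E,
      (((n : ℝ) + 1) * av X k ^ 2 - 1) * (((n : ℝ) + 1) * av X l ^ 2 - 1) =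
      (1 / ((n : ℝ) + 1) ^ 2) * (Sm (e k) (n + 1) X ^ 2 * Sm (e l) (n + 1) X ^ 2) -
        ((n : ℝ) + 1) * av X k ^ 2 - ((n : ℝ) + 1) * av X l ^ 2 + 1 := by
    intro X
    rw [av_eq, av_eq]
    field_simp
    ring
  simp_rw [e1]
  have b1 : BM fun X : Fin (n + 1) → E =>
      (1 / ((n : ℝ) + 1) ^ 2) * (Sm (e k) (n + 1) X ^ 2 * Sm (e l) (n + 1) X ^ 2) :=
    ((BM_Sm (BM_e k) (n + 1)).sq.mul (BM_Sm (BM_e l) (n + 1)).sq).const_mul _
  have b2 : BM fun X : Fin (n + 1) → E => ((n : ℝ) + 1) * av X k ^ 2 := (BM_av n k).sq.const_mul _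
  have b3 : BM fun X : Fin (n + 1) → E => ((n : ℝ) + 1) * av X l ^ 2 := (BM_av n l).sq.const_mul _
  rw [integral_add (((b1.sub b2).sub b3).integrable _) (integrable_const _),
    integral_sub ((b1.sub b2).integrable _) (b3.integrable _),
    integral_sub (b1.integrable _) (b2.integrable _), integral_const_mul, integral_const_mul,
    integral_const_mul, int_av_sq n hk, int_av_sq n hl, h4]
  simp only [integral_const, probReal_univ, smul_eq_mul, one_mul]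
  unfold kap
  push_cast
  split_ifs <;> field_simp <;> ring

lemma int_WK_sq (n : ℕ) (K : Finset (ℕ × ℕ)) (hK : 0 ∉ K) :
    ∫ X, WK n K X ^ 2 ∂(Pn P (n + 1)) = ∑ k ∈ K, 2 / lam k ^ 2 +
      (∑ k ∈ K, ∑ l ∈ K, (kap k l - 1 - (if k = l then 2 else 0)) / (lam k * lam l)) *
        (1 / ((n : ℝ) + 1)) := by
  have h1 : ∀ X : Fin (n + 1) → E, WK n K X ^ 2 = ∑ k ∈ K, ∑ l ∈ K,
      (1 / (lam k * lam l)) * ((((n : ℝ) + 1) * av X k ^ 2 - 1) * (((n : ℝ) + 1) * av X l ^ 2 - 1)) := by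
    intro X
    unfold WK
    rw [sq, Finset.sum_mul_sum]
    refine Finset.sum_congr rfl fun k _ => Finset.sum_congr rfl fun l _ => ?_
    rw [div_mul_div_comm]
    ring
  have hb : ∀ k, BM fun X : Fin (n + 1) → E => ((n : ℝ) + 1) * av X k ^ 2 - 1 := fun k =>
    ((BM_av n k).sq.const_mul _).sub (BM.const _)
  have hkl : ∀ k l, BM fun X : Fin (n + 1) → E =>
      (1 / (lam k * lam l)) * ((((n : ℝ) + 1) * av X k ^ 2 - 1) * (((n : ℝ) + 1) * av X l ^ 2 - 1)) :=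
    fun k l => ((hb k).mul (hb l)).const_mul _
  simp_rw [h1]
  rw [integral_finsetSum _ fun k _ => (BM.sum K fun l _ => hkl k l).integrable _]
  have h2 : ∀ k ∈ K, ∫ X : Fin (n + 1) → E, ∑ l ∈ K,
      (1 / (lam k * lam l)) * ((((n : ℝ) + 1) * av X k ^ 2 - 1) * (((n : ℝ) + 1) * av X l ^ 2 - 1))
        ∂(Pn P (n + 1)) = 2 / lam k ^ 2 +
      (∑ l ∈ K, (kap k l - 1 - (if k = l then 2 else 0)) / (lam k * lam l)) *
        (1 / ((n : ℝ) + 1)) := by
    intro k hk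
    have hk0 : k ≠ 0 := fun h => hK (h ▸ hk)
    rw [integral_finsetSum _ fun l _ => (hkl k l).integrable _]
    have h3 : ∀ l ∈ K, ∫ X : Fin (n + 1) → E,
        (1 / (lam k * lam l)) * ((((n : ℝ) + 1) * av X k ^ 2 - 1) * (((n : ℝ) + 1) * av X l ^ 2 - 1))
          ∂(Pn P (n + 1)) = (if k = l then 2 / lam k ^ 2 else 0) +
        (kap k l - 1 - (if k = l then 2 else 0)) / (lam k * lam l) * (1 / ((n : ℝ) + 1)) := by
      intro l hl
      have hl0 : l ≠ 0 := fun h => hK (h ▸ hl)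
      have hlk := lam_pos hk0
      have hll := lam_pos hl0
      rw [integral_const_mul, int_av_sq_av_sq n hk0 hl0]
      split_ifs with h
      · subst h
        field_simp
      · field_simp
        ring
    rw [Finset.sum_congr rfl h3, Finset.sum_add_distrib, Finset.sum_ite_eq, if_pos hk,
      ← Finset.sum_mul]
  rw [Finset.sum_congr rfl h2, Finset.sum_add_distrib, ← Finset.sum_mul]

lemma tendsto_inv_succ : Tendsto (fun n : ℕ => 1 / ((n : ℝ) + 1)) atTop (𝓝 0) :=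
  tendsto_one_div_add_atTop_nhds_zero_nat

lemma tendsto_WK_sq (K : Finset (ℕ × ℕ)) (hK : 0 ∉ K) :
    Tendsto (fun n => ∫ X, WK n K X ^ 2 ∂(Pn P (n + 1))) atTop (𝓝 (∑ k ∈ K, 2 / lam k ^ 2)) := by
  simp_rw [int_WK_sq _ K hK]
  have h := (tendsto_inv_succ.const_mul
    (∑ k ∈ K, ∑ l ∈ K, (kap k l - 1 - (if k = l then 2 else 0)) / (lam k * lam l))).const_add
    (∑ k ∈ K, 2 / lam k ^ 2)
  rw [mul_zero, add_zero] at h
  exact h

/-- The limit variance. -/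
noncomputable def sig2 : ℝ := ∑' k : ℕ × ℕ, 2 / lam k ^ 2

lemma summable_two_div : Summable fun k : ℕ × ℕ => 2 / lam k ^ 2 := by
  refine (summable_inv_lam_sq.mul_left 2).congr fun k => ?_
  ring

lemma sig2_eq (K : Finset (ℕ × ℕ)) : sig2 = ∑ k ∈ K, 2 / lam k ^ 2 + 2 * tail K := by
  unfold sig2 tail
  have h1 : (fun k : ℕ × ℕ => 2 / lam k ^ 2) = fun k => 2 * (1 / lam k ^ 2) := by
    funext k; ring
  simp_rw [h1]
  rw [tsum_mul_left, ← Finset.mul_sum]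
  ring

lemma tail_nonneg (K : Finset (ℕ × ℕ)) : 0 ≤ tail K := by
  have := sum_le_tail K ∅ (Finset.disjoint_empty_left _)
  simpa using this

/-- comparison of second moments -/
lemma sq_compare {α : Type*} [MeasurableSpace α] (μ : Measure α) [IsProbabilityMeasure μ]
    {f g : α → ℝ} (hf : BM f) (hg : BM g) {η : ℝ} (hη : 0 < η) :
    |∫ x, f x ^ 2 ∂μ - ∫ x, g x ^ 2 ∂μ| ≤
      (1 + 1 / η) * ∫ x, (f x - g x) ^ 2 ∂μ + η * ∫ x, g x ^ 2 ∂μ := by
  have hfg := (hf.sub hg)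
  have hi1 : Integrable (fun x => (1 + 1 / η) * (f x - g x) ^ 2) μ := (hfg.sq.const_mul _).integrable _
  have hi2 : Integrable (fun x => η * g x ^ 2) μ := (hg.sq.const_mul _).integrable _
  rw [← integral_sub (hf.sq.integrable _) (hg.sq.integrable _), ← integral_const_mul,
    ← integral_const_mul, ← integral_add hi1 hi2]
  refine abs_integral_le_integral_abs.trans ?_
  refine integral_mono ((hf.sq.sub hg.sq).integrable _).abs (hi1.add hi2) fun x => ?_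
  show |f x ^ 2 - g x ^ 2| ≤ (1 + 1 / η) * (f x - g x) ^ 2 + η * g x ^ 2
  set a := f x - g x with ha
  have e : f x ^ 2 - g x ^ 2 = a ^ 2 + 2 * g x * a := by rw [ha]; ring
  rw [e]
  have h1 : |2 * g x * a| ≤ (1 / η) * a ^ 2 + η * g x ^ 2 := by
    have hs : 0 < √η := Real.sqrt_pos.mpr hη
    have hss : √η ^ 2 = η := Real.sq_sqrt hη.le
    have h2 := sq_nonneg (|a| / √η - √η * |g x|)
    have h3 : (|a| / √η - √η * |g x|) ^ 2 = (1 / η) * a ^ 2 + η * g x ^ 2 - 2 * |g x| * |a| := by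
      have : (|a| / √η - √η * |g x|) ^ 2 = |a| ^ 2 / √η ^ 2 + √η ^ 2 * |g x| ^ 2 - 2 * |g x| * |a| := by
        field_simp
        ring
      rw [this, hss, sq_abs, sq_abs]
      ring
    rw [h3] at h2
    rw [abs_mul, abs_mul, abs_two]
    linarith
  have h2 : |a ^ 2 + 2 * g x * a| ≤ |a ^ 2| + |2 * g x * a| := abs_add_le _ _
  rw [abs_of_nonneg (sq_nonneg a)] at h2
  nlinarith

/-- **The second moment of the rescaled centred cost converges.** -/
theorem tendsto_VV_sq : Tendsto (fun n => ∫ X, VV n X ^ 2 ∂(Pn P (n + 1))) atTop (𝓝 sig2) := by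
  rw [Metric.tendsto_atTop]
  intro ε hε
  have hs0 : 0 ≤ sig2 := tsum_nonneg fun k => by positivity
  set η : ℝ := ε / (4 * (sig2 + 1)) with hη
  have hη0 : 0 < η := by positivity
  obtain ⟨K, hK, ht⟩ := exists_tail_small (min (ε / 8) (ε / (4 * ((1 + 1 / η) * 240) ))) (by positivity)
  have ht1 : tail K < ε / 8 := ht.trans_le (min_le_left _ _)
  have ht2 : (1 + 1 / η) * (240 * tail K) < ε / 4 := by
    have h1 := ht.trans_le (min_le_right _ _)
    rw [lt_div_iff₀ (by positivity)] at h1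
    linarith
  have hA := tendsto_ww.const_mul ((1 + 1 / η) * (5484 + 3840 * SK K + 1032 * K.card +
      288 * K.card * LL K ^ 2 + 3 * CK K ^ 2))
  rw [mul_zero] at hA
  have hgap : 0 < ε / 4 - (1 + 1 / η) * (240 * tail K) := by linarith
  have hW := Metric.tendsto_atTop.mp (tendsto_WK_sq K hK) (min (ε / 8) 1) (by positivity)
  obtain ⟨N1, hN1⟩ := hW
  obtain ⟨N2, hN2⟩ := eventually_atTop.mp (hA.eventually_le_const hgap)
  obtain ⟨N3, hN3⟩ := eventually_atTop.mp (eventually_subset_box K)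
  refine ⟨max N1 (max N2 N3), fun n hn => ?_⟩
  have h1 := hN1 n ((le_max_left _ _).trans hn)
  have h2 := hN2 n (((le_max_left _ _).trans (le_max_right _ _)).trans hn)
  have h3 := var_final n K hK (hN3 n (((le_max_right _ _).trans (le_max_right _ _)).trans hn))
  rw [Real.dist_eq] at h1
  have h1a : |∫ X, WK n K X ^ 2 ∂(Pn P (n + 1)) - ∑ k ∈ K, 2 / lam k ^ 2| < ε / 8 :=
    h1.trans_le (min_le_left _ _)
  have h1b : |∫ X, WK n K X ^ 2 ∂(Pn P (n + 1)) - ∑ k ∈ K, 2 / lam k ^ 2| < 1 :=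
    h1.trans_le (min_le_right _ _)
  have hsK : ∑ k ∈ K, 2 / lam k ^ 2 ≤ sig2 := by
    rw [sig2_eq K]
    linarith [tail_nonneg K]
  have hWb : ∫ X, WK n K X ^ 2 ∂(Pn P (n + 1)) ≤ sig2 + 1 := by
    have := (abs_lt.mp h1b).2
    linarith
  have hc := sq_compare (Pn P (n + 1)) (BM_VV n) (BM_WK n K) hη0
  rw [int_sq_VV_sub_WK n K hK] at hc
  have hη2 : η * ∫ X, WK n K X ^ 2 ∂(Pn P (n + 1)) ≤ ε / 4 := by
    calc η * ∫ X, WK n K X ^ 2 ∂(Pn P (n + 1)) ≤ η * (sig2 + 1) :=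
          mul_le_mul_of_nonneg_left hWb hη0.le
      _ = ε / 4 := by rw [hη]; field_simp
  have hη3 : 0 ≤ 1 + 1 / η := by positivity
  have hV : (1 + 1 / η) * VK n K ≤ ε / 4 := by
    calc (1 + 1 / η) * VK n K ≤ (1 + 1 / η) * (240 * tail K + (5484 + 3840 * SK K + 1032 * K.card +
          288 * K.card * LL K ^ 2 + 3 * CK K ^ 2) * ww n) := mul_le_mul_of_nonneg_left h3 hη3
      _ ≤ ε / 4 := by nlinarith
  have hsd : |∑ k ∈ K, 2 / lam k ^ 2 - sig2| ≤ ε / 4 := by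
    rw [sig2_eq K, abs_le]
    constructor <;> linarith [tail_nonneg K]
  rw [Real.dist_eq]
  have e1 : ∫ X, VV n X ^ 2 ∂(Pn P (n + 1)) - sig2 =
      (∫ X, VV n X ^ 2 ∂(Pn P (n + 1)) - ∫ X, WK n K X ^ 2 ∂(Pn P (n + 1))) +
      (∫ X, WK n K X ^ 2 ∂(Pn P (n + 1)) - ∑ k ∈ K, 2 / lam k ^ 2) +
      (∑ k ∈ K, 2 / lam k ^ 2 - sig2) := by ring
  rw [e1]
  have h5 := abs_add_three
    (∫ X, VV n X ^ 2 ∂(Pn P (n + 1)) - ∫ X, WK n K X ^ 2 ∂(Pn P (n + 1)))
    (∫ X, WK n K X ^ 2 ∂(Pn P (n + 1)) - ∑ k ∈ K, 2 / lam k ^ 2)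
    (∑ k ∈ K, 2 / lam k ^ 2 - sig2)
  linarith

end Pool.Agent.H43.LD
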